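import Mathlib
import Pool.Agent.Helper92.Crit.Final

set_option autoImplicit false

/-!
# Critical exponents stay bounded in growing dimension

`IsCritExp E q` says that `q` is the critical exponent `q(E)` of the complex normed space `E`, and
`M n` is the minimum of the critical exponents of the `n`-dimensional complex normed spaces.  We
show `M n ≤ 3` for all `n ≥ 1` (and `2 ≤ M n` for `n ≥ 2`), so `liminf M n ≤ 3` is finite.
-/

namespace Pool.Agent.Results.MP_c5257f_an.BoundedExponent

/-- `q` is the critical exponent of `E`: the least positive integer such that every operator `a`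
with `‖a‖ ≤ 1` and `‖a ^ q‖ = 1` has spectral radius `1`. -/
def IsCritExp (E : Type) [NormedAddCommGroup E] [NormedSpace ℂ E] (q : ℕ) : Prop :=
  IsLeast {q : ℕ | 0 < q ∧
    ∀ a : E →L[ℂ] E, ‖a‖ ≤ 1 → ‖a ^ q‖ = 1 → spectralRadius ℂ a = 1} q

/-- The critical exponents of the `n`-dimensional complex normed spaces. -/
def exponents (n : ℕ) : Set ℕ :=
  {q : ℕ | ∃ (E : Type) (_ : NormedAddCommGroup E) (_ : NormedSpace ℂ E),
    FiniteDimensional ℂ E ∧ Module.finrank ℂ E = n ∧ IsCritExp E q}

/-- `M n` is the least critical exponent of an `n`-dimensional complex normed space (it would be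
`⊤` if no such space had a critical exponent). -/
noncomputable def M (n : ℕ) : ℕ∞ := ⨅ q ∈ exponents n, (q : ℕ∞)

theorem result :
    (∀ n, 1 ≤ n → M n ≤ 3) ∧ (∀ n, 2 ≤ n → 2 ≤ M n) ∧ Filter.liminf M Filter.atTop ≤ 3 := by
  have h1 : ∀ n, M n ≤ 3 := by
    intro n
    obtain ⟨E, i1, i2, hfd, hn, h3⟩ := Pool.Agent.Helper92.Crit.exists_space n
    classical
    have hex : ∃ q : ℕ, 0 < q ∧
        ∀ a : E →L[ℂ] E, ‖a‖ ≤ 1 → ‖a ^ q‖ = 1 → spectralRadius ℂ a = 1 := ⟨3, by norm_num, h3⟩
    have hq : Nat.find hex ∈ exponents n :=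
      ⟨E, i1, i2, hfd, hn, Nat.find_spec hex, fun q hq => Nat.find_min' hex hq⟩
    have hle : Nat.find hex ≤ 3 := Nat.find_min' hex ⟨by norm_num, h3⟩
    calc M n ≤ ((Nat.find hex : ℕ) : ℕ∞) := iInf₂_le _ hq
      _ ≤ 3 := by exact_mod_cast hle
  refine ⟨fun n _ => h1 n, ?_, ?_⟩
  · intro n hn
    refine le_iInf₂ ?_
    rintro q ⟨E, i1, i2, hfd, hE, ⟨hq0, hq⟩, _⟩
    have hq2 : 2 ≤ q := by
      by_contra hlt
      have hq1 : q = 1 := by omega
      subst hq1
      obtain ⟨a, ha, hsp⟩ := Pool.Agent.Helper92.Crit.exists_square_zero (W := E) (by omega)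
      have := hq a ha.le (by rw [pow_one, ha])
      rw [hsp] at this
      exact zero_ne_one this
    exact_mod_cast hq2
  · calc Filter.liminf M Filter.atTop ≤ Filter.liminf (fun _ : ℕ => (3 : ℕ∞)) Filter.atTop :=
        Filter.liminf_le_liminf (Filter.Eventually.of_forall h1)
      _ = 3 := Filter.liminf_const 3

end Pool.Agent.Results.MP_c5257f_an.BoundedExponent
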