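import Pool.Agent.Helper41.Crit.Dual

/-!
# Critical exponents: norms with a polyhedral vertex

`IsCritExp E q` says that `q` is the critical exponent of the complex normed space `E`.

* `result.1`: if near a point `v` the norm of `E` is the maximum of the moduli of finitely many
  functionals which all have modulus `1` at `v` and span a space of dimension `k ≥ 1`, then some
  contraction `a` has `‖a ^ (k - 1)‖ = 1` and spectral radius `< 1`, and `q(E) ≥ k`.
* `result.2.1`: if the norm of `E` is the maximum of the moduli of finitely many functionals, then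
  `q(E) ≥ dim E`.
* `result.2.2`: if the unit ball of `E` is the absolutely convex hull of finitely many points, then
  `q(E) ≥ dim E`.
-/

set_option autoImplicit false

namespace Pool.Agent.Results.MP_c5257f_an.PolyhedralVertex

/-- `q` is the critical exponent of `E`: the least positive integer such that every operator `a`
with `‖a‖ ≤ 1` and `‖a ^ q‖ = 1` has spectral radius `1` -/
def IsCritExp (E : Type) [NormedAddCommGroup E] [NormedSpace ℂ E] (q : ℕ) : Prop :=
  IsLeast {q : ℕ | 0 < q ∧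
    ∀ a : E →L[ℂ] E, ‖a‖ ≤ 1 → ‖a ^ q‖ = 1 → spectralRadius ℂ a = 1} q

theorem result :
    (∀ (E : Type) [NormedAddCommGroup E] [NormedSpace ℂ E] [FiniteDimensional ℂ E]
      (ι : Type) [Finite ι] [Nonempty ι] (f : ι → E →L[ℂ] ℂ) (v : E) (r : ℝ), 0 < r →
      (∀ j, ‖f j v‖ = 1) →
      (∀ z, ‖z - v‖ < r → IsGreatest (Set.range fun j => ‖f j z‖) ‖z‖) →
      (∃ a : E →L[ℂ] E, ‖a‖ ≤ 1 ∧
        ‖a ^ (Module.finrank ℂ (Submodule.span ℂ (Set.range f)) - 1)‖ = 1 ∧
        spectralRadius ℂ a < 1) ∧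
      ∀ q, IsCritExp E q → Module.finrank ℂ (Submodule.span ℂ (Set.range f)) ≤ q) ∧
    (∀ (E : Type) [NormedAddCommGroup E] [NormedSpace ℂ E] [FiniteDimensional ℂ E]
      (ι : Type) [Finite ι] (f : ι → E →L[ℂ] ℂ),
      (∀ z, IsGreatest (Set.range fun j => ‖f j z‖) ‖z‖) →
      ∀ q, IsCritExp E q → Module.finrank ℂ E ≤ q) ∧
    (∀ (E : Type) [NormedAddCommGroup E] [NormedSpace ℂ E] [FiniteDimensional ℂ E]
      (ι : Type) [Fintype ι] (x : ι → E),
      (∀ z : E, IsLeast {t : ℝ | ∃ c : ι → ℂ, z = ∑ j, c j • x j ∧ t = ∑ j, ‖c j‖} ‖z‖) →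
      ∀ q, IsCritExp E q → Module.finrank ℂ E ≤ q) := by
  refine ⟨?_, ?_, ?_⟩
  · intro E _ _ _ ι _ hι f v r hr hv hnorm
    have hpos : 0 < Module.finrank ℂ (Submodule.span ℂ (Set.range f)) := by
      obtain ⟨j⟩ := hι
      have h0 : f j ≠ 0 := by
        intro h0
        have h1 := hv j
        rw [h0] at h1
        simp at h1
      rw [Nat.pos_iff_ne_zero]
      intro h
      rw [Submodule.finrank_eq_zero, Submodule.span_eq_bot] at h
      exact h0 (h _ ⟨j, rfl⟩)
    obtain ⟨k, hk⟩ := Nat.exists_eq_succ_of_ne_zero hpos.ne'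
    obtain ⟨a, ha, hak, hsp⟩ := Pool.Agent.Helper41.Crit.vertex_chain f v hv r hr hnorm k hk.ge
    rw [hk]
    refine ⟨⟨a, ha, hak, hsp⟩, ?_⟩
    intro q hq
    exact Pool.Agent.Helper41.Crit.le_of_chain k q a ha hak hsp hq.1.2
  · intro E _ _ _ ι _ f hnorm q hq
    rcases subsingleton_or_nontrivial E with hE | hE
    · rw [Module.finrank_zero_of_subsingleton]; exact Nat.zero_le _
    have hpos : 0 < Module.finrank ℂ E := Module.finrank_pos
    obtain ⟨k, hk⟩ := Nat.exists_eq_succ_of_ne_zero hpos.ne'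
    obtain ⟨v, J, r, hr, hJ, hloc, hrank⟩ :=
      Pool.Agent.Helper41.Crit.polyhedral_vertex f hnorm
    obtain ⟨a, ha, hak, hsp⟩ := Pool.Agent.Helper41.Crit.vertex_chain (fun j : J => f j) v hJ r hr
      hloc k (by rw [hrank, hk])
    rw [hk]
    exact Pool.Agent.Helper41.Crit.le_of_chain k q a ha hak hsp hq.1.2
  · intro E _ _ _ ι _ x hx q hq
    rcases subsingleton_or_nontrivial E with hE | hE
    · rw [Module.finrank_zero_of_subsingleton]; exact Nat.zero_le _
    have hpos : 0 < Module.finrank ℂ E := Module.finrank_pos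
    obtain ⟨k, hk⟩ := Nat.exists_eq_succ_of_ne_zero hpos.ne'
    obtain ⟨a, ha, hak, hsp⟩ := Pool.Agent.Helper41.Crit.dual_chain x
      (Pool.Agent.Helper41.Crit.hull_dual x hx) k hk.ge
    rw [hk]
    exact Pool.Agent.Helper41.Crit.le_of_chain k q a ha hak hsp hq.1.2

end Pool.Agent.Results.MP_c5257f_an.PolyhedralVertex
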